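import Pool.Agent.Helper10.Uct.Sub

/-!
MP_d97caa_an, packet FP: the finite case.
-/

set_option autoImplicit false

open scoped ComplexOrder

namespace Pool.Agent.Helper10.Uct

open Pool.Agent.Helper39.Uct Pool.Agent.Helper39.Uct.Fib

/-! ### the standard identity -/

theorem prod_split {M : Type*} [Monoid M] : ∀ (n : ℕ) (c a : Fin n → M),
    (∀ i j, Commute (c i) (a j)) →
    (List.ofFn (fun i => c i * a i)).prod = (List.ofFn c).prod * (List.ofFn a).prod := by
  intro n
  induction n with
  | zero => intro c a _; simp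
  | succ n ih =>
    intro c a h
    rw [List.ofFn_succ, List.ofFn_succ, List.ofFn_succ, List.prod_cons, List.prod_cons,
      List.prod_cons, ih (fun i => c i.succ) (fun i => a i.succ) (fun i j => h _ _)]
    have hc : Commute (a 0) (List.ofFn (fun i => c i.succ)).prod := by
      apply Commute.list_prod_right
      intro x hx
      rw [List.mem_ofFn] at hx
      obtain ⟨i, rfl⟩ := hx
      exact (h _ _).symm
    calc c 0 * a 0 * ((List.ofFn fun i => c i.succ).prod * (List.ofFn fun i => a i.succ).prod)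
        = c 0 * (a 0 * (List.ofFn fun i => c i.succ).prod) * (List.ofFn fun i => a i.succ).prod := by
          simp only [mul_assoc]
      _ = c 0 * ((List.ofFn fun i => c i.succ).prod * a 0) * (List.ofFn fun i => a i.succ).prod := by
          rw [hc.eq]
      _ = _ := by simp only [mul_assoc]

/-- the standard polynomial -/
noncomputable def Std (U : Type*) [Ring U] [Algebra ℂ U] (m : ℕ) : U [⋀^Fin m]→ₗ[ℂ] U :=
  MultilinearMap.alternatization (MultilinearMap.mkPiAlgebraFin ℂ m U)

theorem Std_apply (U : Type*) [Ring U] [Algebra ℂ U] (m : ℕ) (v : Fin m → U) :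
    Std U m v = ∑ σ : Equiv.Perm (Fin m), ((Equiv.Perm.sign σ : ℤˣ) : ℤ) •
      (List.ofFn (fun i => v (σ i))).prod := by
  unfold Std
  rw [MultilinearMap.alternatization_apply]
  rfl

theorem Std_central (U : Type*) [Ring U] [Algebra ℂ U] (m : ℕ) (c a : Fin m → U)
    (hca : ∀ i j, Commute (c i) (a j)) (hcc : ∀ i j, Commute (c i) (c j))
    (i j : Fin m) (hij : i ≠ j) (ha : a i = a j) : Std U m (fun l => c l * a l) = 0 := by
  rw [Std_apply]
  have h1 : ∀ σ : Equiv.Perm (Fin m),
      ((Equiv.Perm.sign σ : ℤˣ) : ℤ) • (List.ofFn (fun l => c (σ l) * a (σ l))).prod =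
      (List.ofFn c).prod * (((Equiv.Perm.sign σ : ℤˣ) : ℤ) •
        (List.ofFn (fun l => a (σ l))).prod) := by
    intro σ
    rw [prod_split m (fun l => c (σ l)) (fun l => a (σ l)) (fun _ _ => hca _ _), mul_smul_comm]
    congr 2
    have hp : (List.ofFn (c ∘ σ)).Perm (List.ofFn c) := Equiv.Perm.ofFn_comp_perm σ c
    refine hp.prod_eq' ?_
    rw [List.pairwise_ofFn]
    intro a b _
    exact hcc _ _
  rw [Finset.sum_congr rfl (fun σ _ => h1 σ), ← Finset.mul_sum, ← Std_apply,
    AlternatingMap.map_eq_zero_of_eq _ a ha hij, mul_zero]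

/-- a multilinear map, continuous in each variable, that vanishes on `S` vanishes on its closed
span -/
theorem multilinear_closure {B U : Type*} [NormedAddCommGroup B] [NormedSpace ℂ B]
    [AddCommGroup U] [Module ℂ U] [TopologicalSpace U] [T1Space U] {m : ℕ}
    (f : MultilinearMap ℂ (fun _ : Fin m => B) U)
    (hf : ∀ (y : Fin m → B) (i : Fin m), Continuous (fun x => f (Function.update y i x)))
    (S : Set B) (hS : ∀ y : Fin m → B, (∀ i, y i ∈ S) → f y = 0) :
    ∀ y : Fin m → B, (∀ i, y i ∈ (Submodule.span ℂ S).topologicalClosure) → f y = 0 := by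
  classical
  have key : ∀ t : Finset (Fin m), ∀ y : Fin m → B,
      (∀ i ∈ t, y i ∈ (Submodule.span ℂ S).topologicalClosure) → (∀ i, i ∉ t → y i ∈ S) →
      f y = 0 := by
    intro t
    induction t using Finset.induction_on with
    | empty => intro y _ h; exact hS y (fun i => h i (Finset.notMem_empty i))
    | insert j t hj ih =>
      intro y h1 h2
      have hle : (Submodule.span ℂ S).topologicalClosure ≤
          LinearMap.ker (f.toLinearMap y j) := by
        apply Submodule.topologicalClosure_minimal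
        · rw [Submodule.span_le]
          intro x hx
          show f (Function.update y j x) = 0
          apply ih
          · intro i hi
            have hne : i ≠ j := by rintro rfl; exact hj hi
            rw [Function.update_of_ne hne]
            exact h1 i (Finset.mem_insert_of_mem hi)
          · intro i hi
            by_cases hne : i = j
            · subst hne; rw [Function.update_self]; exact hx
            · rw [Function.update_of_ne hne]
              exact h2 i (by rw [Finset.mem_insert, not_or]; exact ⟨hne, hi⟩)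
        · exact isClosed_singleton.preimage (hf y j)
      have h3 := hle (h1 j (Finset.mem_insert_self _ _))
      rw [LinearMap.mem_ker, MultilinearMap.toLinearMap_apply, Function.update_eq_self] at h3
      exact h3
  intro y hy
  exact key Finset.univ y (fun i _ => hy i) (fun i hi => absurd (Finset.mem_univ i) hi)

theorem stdId_of {B : Type} [NonUnitalCStarAlgebra B] {D : Type} [NonUnitalCStarAlgebra D]
    (ι : D →⋆ₙₐ[ℂ] B) (hι : Function.Injective ι) (S : Set B) (m : ℕ)
    (hD : ∀ x : D, ι x ∈ (Submodule.span ℂ S).topologicalClosure)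
    (hS : ∀ y : Fin m → B, (∀ i, y i ∈ S) →
      Std (Unitization ℂ B) m (fun i => ((y i : B) : Unitization ℂ B)) = 0) : StdId m D := by
  intro y
  have hmap := Unitization.starMap_injective (R := ℂ) hι
  apply hmap
  rw [map_zero]
  set f : MultilinearMap ℂ (fun _ : Fin m => B) (Unitization ℂ B) :=
    (Std (Unitization ℂ B) m : MultilinearMap ℂ (fun _ : Fin m => Unitization ℂ B)
      (Unitization ℂ B)).compLinearMap (fun _ => Unitization.inrHom ℂ ℂ B) with hfdef
  have hfa : ∀ y : Fin m → B, f y =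
      Std (Unitization ℂ B) m (fun i => ((y i : B) : Unitization ℂ B)) := fun _ => rfl
  have hcont : Continuous (fun y : Fin m → B => f y) := by
    simp only [hfa, Std_apply]
    refine continuous_finsetSum _ fun σ _ => ?_
    refine Continuous.const_smul (M := ℤ) ?_ _
    have h1 := (ContinuousMultilinearMap.mkPiAlgebraFin ℂ m (Unitization ℂ B)).cont
    exact h1.comp (continuous_pi fun i =>
      (Unitization.continuous_inr (𝕜 := ℂ) (A := B)).comp (continuous_apply (σ i)))
  have h1 := multilinear_closure f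
    (fun y i => hcont.comp (continuous_const.update i continuous_id)) S
    (fun y hy => by rw [hfa]; exact hS y hy) (fun i => ι (y i)) (fun i => hD (y i))
  rw [hfa, Std_apply] at h1
  rw [map_sum, ← h1]
  refine Finset.sum_congr rfl fun σ _ => ?_
  rw [map_zsmul, map_list_prod, List.map_ofFn]
  congr 3
  funext i
  exact Unitization.starMap_inr ι (y (σ i))


/-! ### the finite case -/

section

variable {Q : Type} [Group Q] {B : Type} [NonUnitalCStarAlgebra B]

theorem fib_mul {G : Fib Q B} {p q r : Q} {x y : B} (hx : x ∈ G.fib p) (hy : y ∈ G.fib q)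
    (h : p * q = r) : x * y ∈ G.fib r := h ▸ G.mul_mem p q x y hx hy

theorem fib_star {G : Fib Q B} {p q : Q} {x : B} (hx : x ∈ G.fib p) (h : p⁻¹ = q) :
    star x ∈ G.fib q := h ▸ G.star_mem p x hx

theorem sa_mul_self_ne {x : B} (hx : IsSelfAdjoint x) (h : x ≠ 0) : x * x ≠ 0 := by
  intro h0
  apply h
  rw [← CStarRing.star_mul_self_eq_zero_iff, hx.star_eq]
  exact h0

/-- commutator with the unit fibre, cut by `d`, right version -/
theorem comm_right (hPF : S_PF) (hPE : S_PE) {G : Fib Q B} (hC : G.Comm) {d : B}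
    (hd : d ∈ G.fib 1) (hdsa : IsSelfAdjoint d) {k : Q}
    (hk : ∀ φ : G.Pt, φ d ≠ 0 → k ∈ G.St φ) {b c : B} (hb : b ∈ G.fib k) (hc : c ∈ G.fib 1) :
    (c * b - b * c) * d = 0 := by
  have pf := hPF Q B G hC
  set y := c * b - b * c with hy
  have hyk : y ∈ G.fib k :=
    Submodule.sub_mem _ (fib_mul hc hb (one_mul k)) (fib_mul hb hc (mul_one k))
  have hsy : star y ∈ G.fib k⁻¹ := G.star_mem k y hyk
  have hyy : star y * y ∈ G.fib 1 := fib_mul hsy hyk (inv_mul_cancel k)
  have hz : d * (star y * y) * d ∈ G.fib 1 := fib_mul (fib_mul hd hyy (one_mul 1)) hd (one_mul 1)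
  have hz0 : d * (star y * y) * d = 0 := by
    by_contra hne
    obtain ⟨φ, hφ⟩ := hPE Q B G hC _ hz hne
    have hφ0 : φ (d * (star y * y) * d) ≠ 0 := by
      intro h0
      rw [h0, norm_zero] at hφ
      exact hne (norm_eq_zero.1 hφ.symm)
    have e1 : φ (d * (star y * y) * d) = φ d * φ (star y * y) * φ d := by
      rw [pf.mulR φ d hd, pf.mulL φ d hd]
    rw [e1] at hφ0
    have hd0 : φ d ≠ 0 := right_ne_zero_of_mul hφ0
    obtain ⟨-, hst⟩ := hk φ hd0
    have hsb : star b ∈ G.fib k⁻¹ := G.star_mem k b hb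
    have hsc : star c ∈ G.fib 1 := fib_star hc inv_one
    have hyy0 : φ (star y * y) = 0 := by
      have e2 : star y * y = star b * (star c * c) * b - (star b * star c * b) * c
          - star c * (star b * c * b) + star c * ((star b * b) * c) := by
        rw [hy, star_sub, star_mul, star_mul]
        noncomm_ring
      have hcc : star c * c ∈ G.fib 1 := fib_mul hsc hc (one_mul 1)
      have l1 : φ (star b * (star c * c) * b) = φ (star c) * φ c * φ (star b * b) := by
        rw [hst b hb _ hcc, φ.mult _ hsc _ hc]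
      have l2 : φ ((star b * star c * b) * c) = φ (star c) * φ (star b * b) * φ c := by
        rw [pf.mulR φ c hc, hst b hb _ hsc]
      have l3 : φ (star c * (star b * c * b)) = φ (star c) * (φ c * φ (star b * b)) := by
        rw [pf.mulL φ _ hsc, hst b hb _ hc]
      have l4 : φ (star c * ((star b * b) * c)) = φ (star c) * (φ (star b * b) * φ c) := by
        rw [pf.mulL φ _ hsc, pf.mulR φ c hc]
      have e3 : φ (star y * y) = φ (star b * (star c * c) * b) - φ ((star b * star c * b) * c)
          - φ (star c * (star b * c * b)) + φ (star c * ((star b * b) * c)) := by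
        rw [e2]
        show φ.toFun _ = φ.toFun _ - φ.toFun _ - φ.toFun _ + φ.toFun _
        rw [map_add, map_sub, map_sub]
      rw [e3, l1, l2, l3, l4]
      ring
    apply hφ0
    rw [hyy0]
    ring
  rw [← CStarRing.star_mul_self_eq_zero_iff, star_mul, hdsa.star_eq]
  rw [← hz0]
  simp only [mul_assoc]

theorem comm_left (hPF : S_PF) (hPE : S_PE) {G : Fib Q B} (hC : G.Comm) {d : B}
    (hd : d ∈ G.fib 1) (hdsa : IsSelfAdjoint d) {k : Q}
    (hk : ∀ φ : G.Pt, φ d ≠ 0 → k⁻¹ ∈ G.St φ) {b c : B} (hb : b ∈ G.fib k) (hc : c ∈ G.fib 1) :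
    d * (c * b - b * c) = 0 := by
  have h := comm_right hPF hPE hC hd hdsa hk (b := star b) (c := star c) (G.star_mem k b hb)
    (fib_star hc inv_one)
  have h2 := congrArg star h
  rw [star_zero, star_mul, star_sub, star_mul, star_mul, star_star, star_star,
    hdsa.star_eq] at h2
  have e : d * (c * b - b * c) = -(d * (b * c - c * b)) := by noncomm_ring
  rw [e, h2, neg_zero]

/-- the common denominators -/
theorem exists_frame (hPF : S_PF) (hPE : S_PE) {G : Fib Q B} (hC : G.Comm) {d : B}
    (hd : d ∈ G.fib 1) (hdsa : IsSelfAdjoint d) (hd0 : d ≠ 0) (s : Finset Q)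
    (hk : ∀ k ∈ s, ∀ φ : G.Pt, φ d ≠ 0 → k ∈ G.St φ) :
    ∃ (a : Q → B) (g : B), g ∈ G.fib 1 ∧ IsSelfAdjoint g ∧ g ≠ 0 ∧
      (∃ h ∈ G.fib 1, g = d * d * h) ∧
      ∀ k ∈ s, a k ∈ G.fib k ∧ ∃ h ∈ G.fib 1, g = h * (star (a k) * a k) := by
  classical
  have pf := hPF Q B G hC
  induction s using Finset.induction_on with
  | empty =>
    have hdd : d * d ∈ G.fib 1 := fib_mul hd hd (one_mul 1)
    have hddsa : IsSelfAdjoint (d * d) := by
      rw [isSelfAdjoint_iff, star_mul, hdsa.star_eq]
    refine ⟨fun _ => 0, d * d * (d * d), fib_mul hdd hdd (one_mul 1), ?_,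
      sa_mul_self_ne hddsa (sa_mul_self_ne hdsa hd0), ⟨d * d, hdd, rfl⟩, ?_⟩
    · rw [isSelfAdjoint_iff, star_mul, hddsa.star_eq]
    · intro k hk
      exact absurd hk (Finset.notMem_empty k)
  | insert k s hks ih =>
    obtain ⟨a, g, hg, hgsa, hg0, ⟨h, hh, hgh⟩, ha⟩ :=
      ih (fun k' hk' => hk k' (Finset.mem_insert_of_mem hk'))
    obtain ⟨φ, hφ⟩ := hPE Q B G hC g hg hg0
    have hφ0 : φ g ≠ 0 := by
      intro h0
      rw [h0, norm_zero] at hφ
      exact hg0 (norm_eq_zero.1 hφ.symm)
    have hφd : φ d ≠ 0 := by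
      intro h0
      apply hφ0
      rw [hgh, mul_assoc, pf.mulL φ d hd, h0, zero_mul]
    obtain ⟨⟨b, hb, hbb⟩, -⟩ := hk k (Finset.mem_insert_self _ _) φ hφd
    have hsbb : star b * b ∈ G.fib 1 := fib_mul (G.star_mem k b hb) hb (inv_mul_cancel k)
    refine ⟨Function.update a k b, g * (star b * b), fib_mul hg hsbb (one_mul 1), ?_, ?_, ?_, ?_⟩
    · rw [isSelfAdjoint_iff, star_mul, star_mul, star_star, hgsa.star_eq]
      exact hC _ hsbb _ hg
    · intro h0
      have h1 : φ (g * (star b * b)) = φ g * φ (star b * b) := pf.mulL φ g hg _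
      rw [h0] at h1
      have h2 : φ (0 : B) = 0 := φ.toFun.map_zero
      rw [h2] at h1
      exact (mul_ne_zero hφ0 hbb) h1.symm
    · exact ⟨h * (star b * b), fib_mul hh hsbb (one_mul 1), by rw [hgh]; simp only [mul_assoc]⟩
    · intro k' hk'
      by_cases hkk : k' = k
      · subst hkk
        rw [Function.update_self]
        exact ⟨hb, g, hg, rfl⟩
      · rw [Function.update_of_ne hkk]
        rcases Finset.mem_insert.1 hk' with h1 | h1
        · exact absurd h1 hkk
        obtain ⟨h2, h', hh', h3⟩ := ha k' h1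
        refine ⟨h2, h' * (star b * b), fib_mul hh' hsbb (one_mul 1), ?_⟩
        have haa : star (a k') * a k' ∈ G.fib 1 :=
          fib_mul (G.star_mem k' _ h2) h2 (inv_mul_cancel k')
        rw [h3, mul_assoc, hC _ haa _ hsbb]
        simp only [mul_assoc]

end

theorem fp (hPF : S_PF) (hPE : S_PE) (hAE : S_AE) : S_FP := by
  intro Q _ B _ G hC
  rintro ⟨d, hd, hdsa, hd0, K, hK1, hKfin, hfix1, hfix2⟩
  classical
  have : Fintype K := Fintype.ofFinite K
  -- commutation with the unit fibre
  have hR : ∀ k ∈ K, ∀ b ∈ G.fib k, ∀ c ∈ G.fib 1, (c * b - b * c) * d = 0 :=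
    fun k hk b hb c hc => comm_right hPF hPE hC hd hdsa (fun φ hφ => hfix1 k hk φ hφ) hb hc
  have hL : ∀ k ∈ K, ∀ b ∈ G.fib k, ∀ c ∈ G.fib 1, d * (c * b - b * c) = 0 :=
    fun k hk b hb c hc => comm_left hPF hPE hC hd hdsa
      (fun φ hφ => hfix1 _ (K.inv_mem hk) φ hφ) hb hc
  have hR' : ∀ k ∈ K, ∀ b ∈ G.fib k, ∀ c ∈ G.fib 1, c * b * d = b * c * d := by
    intro k hk b hb c hc
    have := hR k hk b hb c hc
    rwa [sub_mul, sub_eq_zero] at this
  have hL' : ∀ k ∈ K, ∀ b ∈ G.fib k, ∀ c ∈ G.fib 1, d * (c * b) = d * (b * c) := by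
    intro k hk b hb c hc
    have := hL k hk b hb c hc
    rwa [mul_sub, sub_eq_zero] at this
  -- the frame
  obtain ⟨a, g, hg, hgsa, hg0, ⟨h, hh, hgh⟩, ha⟩ := exists_frame hPF hPE hC hd hdsa hd0
    ((Finset.univ : Finset K).image (fun k : K => (k : Q))) (by
      intro k hk
      obtain ⟨k', -, rfl⟩ := Finset.mem_image.1 hk
      exact fun φ hφ => hfix1 _ k'.2 φ hφ)
  have ha' : ∀ k ∈ K, a k ∈ G.fib k ∧ ∃ h ∈ G.fib 1, g = h * (star (a k) * a k) :=
    fun k hk => ha k (Finset.mem_image.2 ⟨⟨k, hk⟩, Finset.mem_univ _, rfl⟩)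
  have hdh : d * h ∈ G.fib 1 := fib_mul hd hh (one_mul 1)
  have hgd : g = d * h * d := by rw [hgh, mul_assoc, hC _ hd _ hdh]
  have hgd' : g = h * d * d := by rw [hgd, hC _ hd _ hh]
  have hgd3 : g = d * (h * d) := by rw [hgd, mul_assoc]
  have hdd : d * (d * h) = g := by rw [hgh, mul_assoc]
  -- g is central for the fibres over K
  have hcen : ∀ k ∈ K, ∀ b ∈ G.fib k, g * b = b * g := by
    intro k hk b hb
    have e1 : g * b = d * h * b * d := by
      calc g * b = d * ((d * h) * b) := by rw [← hdd]; simp only [mul_assoc]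
        _ = d * (b * (d * h)) := hL' k hk b hb _ hdh
        _ = d * (b * (h * d)) := by rw [hC _ hd _ hh]
        _ = d * (b * h) * d := by simp only [mul_assoc]
        _ = d * (h * b) * d := by rw [hL' k hk b hb _ hh]
        _ = d * h * b * d := by simp only [mul_assoc]
    have e2 : b * g = d * h * b * d := by
      calc b * g = b * (d * h) * d := by rw [hgd]; simp only [mul_assoc]
        _ = d * h * b * d := (hR' k hk b hb _ hdh).symm
    rw [e1, e2]
  have hgc : ∀ k ∈ K, ∀ b ∈ G.fib k, ∀ c ∈ G.fib 1, g * (c * b) = g * (b * c) := by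
    intro k hk b hb c hc
    have e := hL' k hk b hb c hc
    rw [hgd]
    simp only [mul_assoc] at e ⊢
    rw [e]
  have hcg : ∀ k ∈ K, ∀ b ∈ G.fib k, ∀ c ∈ G.fib 1, c * b * g = b * c * g := by
    intro k hk b hb c hc
    have e := hR' k hk b hb c hc
    rw [hgd3]
    simp only [← mul_assoc] at e ⊢
    rw [e]
  have hg1 : ∀ c ∈ G.fib 1, g * c = c * g := fun c hc => hC _ hg _ hc
  -- the generators
  set S : Set B := {x | ∃ k ∈ K, ∃ b ∈ G.fib k, x = g * b * g} with hS
  have hgen : ∀ k ∈ K, ∀ b ∈ G.fib k, ∃ c ∈ G.fib 1, g * b * g = (c * g) * a k := by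
    intro k hk b hb
    obtain ⟨hak, h', hh', hgk⟩ := ha' k hk
    have hsa : star (a k) ∈ G.fib k⁻¹ := G.star_mem k _ hak
    have hba : b * star (a k) ∈ G.fib 1 := fib_mul hb hsa (mul_inv_cancel k)
    have haa : star (a k) * a k ∈ G.fib 1 := fib_mul hsa hak (inv_mul_cancel k)
    refine ⟨b * star (a k) * h', fib_mul hba hh' (one_mul 1), ?_⟩
    calc g * b * g = b * g * g := by rw [hcen k hk b hb]
      _ = b * (star (a k) * a k * h') * g := by
          rw [hC _ haa _ hh', ← hgk]
      _ = (b * star (a k)) * (a k * h' * g) := by simp only [mul_assoc]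
      _ = (b * star (a k)) * (h' * a k * g) := by rw [hcg k hk _ hak _ hh']
      _ = (b * star (a k)) * (h' * (a k * g)) := by simp only [mul_assoc]
      _ = (b * star (a k)) * (h' * (g * a k)) := by rw [hcen k hk _ hak]
      _ = _ := by simp only [mul_assoc]
  -- products and adjoints of generators
  have hmulS : ∀ x ∈ S, ∀ y ∈ S, x * y ∈ (Submodule.span ℂ S).topologicalClosure := by
    rintro x ⟨k, hk, b, hb, rfl⟩ y ⟨k', hk', b', hb', rfl⟩
    apply Submodule.le_topologicalClosure
    apply Submodule.subset_span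
    refine ⟨k * k', K.mul_mem hk hk', b * g * (g * b'), ?_, by simp only [mul_assoc]⟩
    exact fib_mul (fib_mul hb hg (mul_one k)) (fib_mul hg hb' (one_mul k')) rfl
  have hstarS : ∀ x ∈ S, star x ∈ S := by
    rintro x ⟨k, hk, b, hb, rfl⟩
    refine ⟨k⁻¹, K.inv_mem hk, star b, G.star_mem k b hb, ?_⟩
    rw [star_mul, star_mul, hgsa.star_eq]
    simp only [mul_assoc]
  set V := (Submodule.span ℂ S).topologicalClosure with hV
  have hVcl : IsClosed (V : Set B) := Submodule.isClosed_topologicalClosure _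
  have hVmul : ∀ x ∈ V, ∀ y ∈ V, x * y ∈ V := closure_mul_mem S S V hVcl hmulS
  have hVstar : ∀ x ∈ V, star x ∈ V := closure_star_mem S S hstarS
  obtain ⟨D, _, ι, hι, hrange⟩ := exists_alg V hVcl hVmul hVstar
  have hmemD : ∀ x : D, ι x ∈ V := by
    intro x
    have : ι x ∈ (V : Set B) := hrange ▸ Set.mem_range_self x
    exact this
  have hliftD : ∀ x ∈ V, ∃ y : D, ι y = x := by
    intro x hx
    have : x ∈ Set.range ι := by rw [hrange]; exact hx
    exact this
  have hSV : S ⊆ V := fun x hx => Submodule.le_topologicalClosure _ (Submodule.subset_span hx)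
  -- nontriviality
  have hggg : g * g * g ≠ 0 := by
    intro h0
    apply sa_mul_self_ne (x := g * g) (by rw [isSelfAdjoint_iff, star_mul, hgsa.star_eq])
      (sa_mul_self_ne hgsa hg0)
    rw [← mul_assoc, h0, zero_mul]
  have hnt : Nontrivial D := by
    obtain ⟨y, hy⟩ := hliftD (g * g * g) (hSV ⟨1, K.one_mem, g, hg, rfl⟩)
    refine ⟨⟨y, 0, ?_⟩⟩
    rintro rfl
    rw [map_zero] at hy
    exact hggg hy.symm
  -- the standard identity
  have hstd : StdId (Fintype.card K + 1) D := by
    refine stdId_of ι hι S _ hmemD ?_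
    intro y hy
    have hch : ∀ i, ∃ (k : K) (c : B), c ∈ G.fib 1 ∧ y i = (c * g) * a k := by
      intro i
      obtain ⟨k, hk, b, hb, hyb⟩ := hy i
      obtain ⟨c, hc, hc'⟩ := hgen k hk b hb
      exact ⟨⟨k, hk⟩, c, hc, by rw [hyb, hc']⟩
    choose κ c hc hyc using hch
    obtain ⟨i, j, hij, hκ⟩ := Fintype.exists_ne_map_eq_of_card_lt κ (by simp)
    have e : (fun i => ((y i : B) : Unitization ℂ B)) =
        fun i => ((c i * g : B) : Unitization ℂ B) * ((a (κ i) : B) : Unitization ℂ B) := by
      funext i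
      rw [hyc i, Unitization.inr_mul]
    rw [e]
    refine Std_central (Unitization ℂ B) _ (fun i => ((c i * g : B) : Unitization ℂ B))
      (fun i => ((a (κ i) : B) : Unitization ℂ B)) ?_ ?_ i j hij (by simp only [hκ])
    · intro i j
      show ((c i * g : B) : Unitization ℂ B) * ((a (κ j) : B) : Unitization ℂ B) =
        ((a (κ j) : B) : Unitization ℂ B) * ((c i * g : B) : Unitization ℂ B)
      rw [← Unitization.inr_mul, ← Unitization.inr_mul]
      congr 1
      have h1 := (ha' (κ j) (κ j).2).1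
      calc c i * g * a (κ j) = c i * (g * a (κ j)) := mul_assoc _ _ _
        _ = c i * (a (κ j) * g) := by rw [hcen _ (κ j).2 _ h1]
        _ = c i * a (κ j) * g := (mul_assoc _ _ _).symm
        _ = a (κ j) * c i * g := hcg _ (κ j).2 _ h1 _ (hc i)
        _ = a (κ j) * (c i * g) := mul_assoc _ _ _
    · intro i j
      show ((c i * g : B) : Unitization ℂ B) * ((c j * g : B) : Unitization ℂ B) =
        ((c j * g : B) : Unitization ℂ B) * ((c i * g : B) : Unitization ℂ B)
      rw [← Unitization.inr_mul, ← Unitization.inr_mul]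
      congr 1
      exact hC _ (fib_mul (hc i) hg (one_mul 1)) _ (fib_mul (hc j) hg (one_mul 1))
  obtain ⟨e₀, he0sa, he00, he0⟩ := hAE D _ hnt hstd
  set x₀ := ι e₀ with hx0
  have hx0V : x₀ ∈ V := hmemD e₀
  have hx0sa : IsSelfAdjoint x₀ := by
    rw [isSelfAdjoint_iff, hx0, ← map_star, he0sa.star_eq]
  have hx00 : x₀ ≠ 0 := by
    intro h0
    apply he00
    apply hι
    rw [map_zero]
    exact h0
  have hab : ∀ x ∈ V, ∀ y ∈ V, (x₀ * x * x₀) * (x₀ * y * x₀) = (x₀ * y * x₀) * (x₀ * x * x₀) := by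
    intro x hx y hy
    obtain ⟨x', rfl⟩ := hliftD x hx
    obtain ⟨y', rfl⟩ := hliftD y hy
    have := congrArg ι (he0 x' y')
    simpa only [map_mul] using this
  -- sandwiches
  have hsand : ∀ k ∈ K, ∀ b ∈ G.fib k, x₀ * b * x₀ ∈ V := by
    intro k hk b hb
    refine closure_sandwich S S V hVcl b ?_ x₀ hx0V x₀ hx0V
    rintro x ⟨k', hk', b', hb', rfl⟩ y ⟨k'', hk'', b'', hb'', rfl⟩
    apply hSV
    refine ⟨k' * k * k'', K.mul_mem (K.mul_mem hk' hk) hk'', (b' * g) * b * (g * b''), ?_, ?_⟩
    · exact fib_mul (fib_mul (fib_mul hb' hg (mul_one k')) hb rfl) (fib_mul hg hb'' (one_mul k'')) rfl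
    · simp only [mul_assoc]
  have hsand0 : ∀ b : B, g * b * g = 0 → x₀ * b * x₀ = 0 := by
    intro b hb
    have := closure_sandwich S S (⊥ : Submodule ℂ B) (by
        rw [Submodule.bot_coe]; exact isClosed_singleton) b ?_ x₀ hx0V x₀ hx0V
    · exact (Submodule.mem_bot ℂ).1 this
    rintro x ⟨k', hk', b', hb', rfl⟩ y ⟨k'', hk'', b'', hb'', rfl⟩
    rw [Submodule.mem_bot]
    have e : g * b' * g * b * (g * b'' * g) = g * b' * (g * b * g) * (b'' * g) := by
      simp only [mul_assoc]
    rw [e, hb, mul_zero, zero_mul]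
  -- the subgroup
  refine ⟨x₀ * x₀, Subgroup.closure (G.M0 d ∪ (K : Set Q)), K, ?_, hK1, ?_, ?_, ?_, ?_, ?_, ?_⟩
  · intro k hk
    exact Subgroup.subset_closure (Or.inr hk)
  · have hM0inv : ∀ q ∈ G.M0 d, q⁻¹ ∈ G.M0 d := by
      rintro q ⟨b, hb, hb0⟩
      refine ⟨star b, G.star_mem q b hb, ?_⟩
      intro h0
      apply hb0
      have := congrArg star h0
      rw [star_zero, star_mul, star_mul, star_star, hdsa.star_eq] at this
      rw [mul_assoc]
      exact this
    have key : ∀ q ∈ Subgroup.closure (G.M0 d ∪ (K : Set Q)),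
        (∀ k ∈ K, q * k * q⁻¹ ∈ K) ∧ (∀ k ∈ K, q⁻¹ * k * q ∈ K) := by
      intro q hq
      induction hq using Subgroup.closure_induction with
      | mem q hq =>
        rcases hq with hq | hq
        · refine ⟨hfix2 q hq, ?_⟩
          intro k hk
          have := hfix2 _ (hM0inv q hq) k hk
          rwa [inv_inv] at this
        · exact ⟨fun k hk => K.mul_mem (K.mul_mem hq hk) (K.inv_mem hq),
            fun k hk => K.mul_mem (K.mul_mem (K.inv_mem hq) hk) hq⟩
      | one => simp
      | mul x y _ _ hx hy =>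
        refine ⟨fun k hk => ?_, fun k hk => ?_⟩
        · have := hx.1 _ (hy.1 k hk)
          have e : x * y * k * (x * y)⁻¹ = x * (y * k * y⁻¹) * x⁻¹ := by group
          rw [e]; exact this
        · have := hy.2 _ (hx.2 k hk)
          have e : (x * y)⁻¹ * k * (x * y) = y⁻¹ * (x⁻¹ * k * x) * y := by group
          rw [e]; exact this
      | inv x _ hx =>
        refine ⟨fun k hk => ?_, fun k hk => ?_⟩
        · rw [inv_inv]; exact hx.2 k hk
        · rw [inv_inv]; exact hx.1 k hk
    exact fun q hq => (key q hq).1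
  · rw [isSelfAdjoint_iff, star_mul, hx0sa.star_eq]
  · exact sa_mul_self_ne hx0sa hx00
  · intro q hq b hb
    have hdbd : d * b * d = 0 := by
      by_contra hne
      exact hq (Subgroup.subset_closure (Or.inl ⟨b, hb, hne⟩))
    have hgbg : g * b * g = 0 := by
      have e : g * b * g = d * h * (d * b * d) * (h * d) := by
        nth_rewrite 1 [hgd]
        rw [hgd3]
        simp only [mul_assoc]
      rw [e, hdbd, mul_zero, zero_mul]
    have e : x₀ * x₀ * b * (x₀ * x₀) = x₀ * (x₀ * b * x₀) * x₀ := by simp only [mul_assoc]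
    rw [e, hsand0 b hgbg, mul_zero, zero_mul]
  · have hle : V ≤ (⨆ k : K, G.fib (k : Q)).topologicalClosure := by
      apply Submodule.topologicalClosure_mono
      rw [Submodule.span_le]
      rintro x ⟨k, hk, b, hb, rfl⟩
      have h1 : g * b * g ∈ G.fib k := fib_mul (fib_mul hg hb (one_mul k)) hg (mul_one k)
      exact (le_iSup (fun k : K => G.fib (k : Q)) ⟨k, hk⟩) h1
    exact hle (hVmul _ hx0V _ hx0V)
  · intro k hk k' hk' b hb b' hb'
    have e : ∀ b : B, x₀ * x₀ * b * (x₀ * x₀) = x₀ * (x₀ * b * x₀) * x₀ := by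
      intro b; simp only [mul_assoc]
    rw [e b, e b']
    exact hab _ (hsand k hk b hb) _ (hsand k' hk' b' hb')

end Pool.Agent.Helper10.Uct
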