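import Pool.Agent.Helper39.Uct.Goals2

/-!
MP_d97caa_an: closed subspaces stable under products and star, as C*-algebras.
-/

set_option autoImplicit false

open scoped ComplexOrder

namespace Pool.Agent.Helper10.Uct

open Pool.Agent.Helper39.Uct

variable {B : Type} [NonUnitalCStarAlgebra B]

/-- a continuous linear map that sends `S` into a closed subspace sends the closed span of `S`
into it -/
theorem closure_map_mem {B' : Type*} [AddCommGroup B'] [Module ℂ B'] [TopologicalSpace B']
    (S : Set B) (N : Submodule ℂ B')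
    (hN : IsClosed (N : Set B')) (L : B →ₗ[ℂ] B') (hL : Continuous L) (h : ∀ x ∈ S, L x ∈ N) :
    ∀ x ∈ (Submodule.span ℂ S).topologicalClosure, L x ∈ N := by
  intro x hx
  have h1 : (Submodule.span ℂ S).topologicalClosure ≤ N.comap L :=
    Submodule.topologicalClosure_minimal _ (Submodule.span_le.2 h) (hN.preimage hL)
  exact h1 hx

theorem closure_sandwich (S T : Set B) (N : Submodule ℂ B) (hN : IsClosed (N : Set B))
    (b : B) (h : ∀ x ∈ S, ∀ y ∈ T, x * b * y ∈ N) :
    ∀ x ∈ (Submodule.span ℂ S).topologicalClosure,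
      ∀ y ∈ (Submodule.span ℂ T).topologicalClosure, x * b * y ∈ N := by
  intro x hx y hy
  have h1 : ∀ x ∈ S, x * b * y ∈ N := by
    intro x hx
    exact closure_map_mem T N hN (LinearMap.mulLeft ℂ (x * b)) (continuous_const_mul _)
      (fun y hy => h x hx y hy) y hy
  have h2 := closure_map_mem S N hN (LinearMap.mulRight ℂ (b * y)) (continuous_mul_const _)
    (fun x hx => by
      have := h1 x hx
      rw [mul_assoc] at this
      exact this) x hx
  rw [mul_assoc]
  exact h2

theorem closure_mul_mem (S T : Set B) (N : Submodule ℂ B) (hN : IsClosed (N : Set B))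
    (h : ∀ x ∈ S, ∀ y ∈ T, x * y ∈ N) :
    ∀ x ∈ (Submodule.span ℂ S).topologicalClosure,
      ∀ y ∈ (Submodule.span ℂ T).topologicalClosure, x * y ∈ N := by
  intro x hx y hy
  have h1 : ∀ x ∈ S, x * y ∈ N := by
    intro x hx
    exact closure_map_mem T N hN (LinearMap.mulLeft ℂ x) (continuous_const_mul _)
      (fun y hy => h x hx y hy) y hy
  exact closure_map_mem S N hN (LinearMap.mulRight ℂ y) (continuous_mul_const _)
    (fun x hx => h1 x hx) x hx

theorem closure_star_mem (S T : Set B) (h : ∀ x ∈ S, star x ∈ T) :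
    ∀ x ∈ (Submodule.span ℂ S).topologicalClosure,
      star x ∈ (Submodule.span ℂ T).topologicalClosure := by
  have hspan : ∀ x ∈ Submodule.span ℂ S, star x ∈ Submodule.span ℂ T := by
    intro x hx
    induction hx using Submodule.span_induction with
    | mem x hx => exact Submodule.subset_span (h x hx)
    | zero => rw [star_zero]; exact Submodule.zero_mem _
    | add x y _ _ hx hy => rw [star_add]; exact Submodule.add_mem _ hx hy
    | smul c x _ hx => rw [star_smul]; exact Submodule.smul_mem _ _ hx
  intro x hx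
  exact map_mem_closure continuous_star hx hspan

/-- a subspace stable under products and star, as a star subalgebra -/
def subalg (V : Submodule ℂ B) (hmul : ∀ x ∈ V, ∀ y ∈ V, x * y ∈ V)
    (hstar : ∀ x ∈ V, star x ∈ V) : NonUnitalStarSubalgebra ℂ B where
  carrier := V
  add_mem' := fun hx hy => V.add_mem hx hy
  zero_mem' := V.zero_mem
  mul_mem' := fun hx hy => hmul _ hx _ hy
  smul_mem' := fun c _ hx => V.smul_mem c hx
  star_mem' := fun hx => hstar _ hx

theorem mem_subalg {V : Submodule ℂ B} {hmul : ∀ x ∈ V, ∀ y ∈ V, x * y ∈ V}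
    {hstar : ∀ x ∈ V, star x ∈ V} {x : B} : x ∈ subalg V hmul hstar ↔ x ∈ V := Iff.rfl

/-- closed subspaces stable under products and star are C*-algebras -/
theorem exists_alg (V : Submodule ℂ B) (hV : IsClosed (V : Set B))
    (hmul : ∀ x ∈ V, ∀ y ∈ V, x * y ∈ V) (hstar : ∀ x ∈ V, star x ∈ V) :
    ∃ (D : Type) (_ : NonUnitalCStarAlgebra D) (ι : D →⋆ₙₐ[ℂ] B), Function.Injective ι ∧
      Set.range ι = (V : Set B) := by
  have hcl : IsClosed ((subalg V hmul hstar : NonUnitalStarSubalgebra ℂ B) : Set B) := hV
  refine ⟨(subalg V hmul hstar : NonUnitalStarSubalgebra ℂ B),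
    NonUnitalStarSubalgebra.nonUnitalCStarAlgebra (subalg V hmul hstar),
    NonUnitalStarSubalgebraClass.subtype (subalg V hmul hstar), ?_, ?_⟩
  · exact Subtype.coe_injective
  · ext x
    constructor
    · rintro ⟨y, rfl⟩
      exact y.2
    · intro hx
      exact ⟨⟨x, hx⟩, rfl⟩

end Pool.Agent.Helper10.Uct
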