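import Pool.Agent.Helper10.Uct.Sub

/-!
MP_d97caa_an, packet TLV: from virtually polycyclic to locally virtually polycyclic groups, and
the group version.
-/

set_option autoImplicit false

open scoped ComplexOrder

namespace Pool.Agent.Helper10.Uct

open Pool.Agent.Helper39.Uct Pool.Agent.Helper39.Uct.Fib

theorem tv (hZ : S_ZORN) (hTQ : S_TQ) (hTI : S_TI) : S_TV := by
  intro 𝒞 h𝒞 B _ _ Q _ hQ G A _ hA ι hι
  exact hZ 𝒞 WG h𝒞 hTQ (hTI 𝒞 h𝒞) B ⟨Q, inferInstance, hQ, G, A, inferInstance, hA, ι, hι⟩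

/-- lifting through an injective *-homomorphism -/
theorem lift_hom {A D B : Type} [NonUnitalCStarAlgebra A] [NonUnitalCStarAlgebra D]
    [NonUnitalCStarAlgebra B] (f : A →⋆ₙₐ[ℂ] B) (ι : D →⋆ₙₐ[ℂ] B) (hι : Function.Injective ι)
    (h : Set.range f ⊆ Set.range ι) : ∃ f' : A →⋆ₙₐ[ℂ] D, ∀ a, ι (f' a) = f a := by
  have h1 : ∀ a, ∃ y : D, ι y = f a := fun a => h (Set.mem_range_self a)
  choose g hg using h1
  refine ⟨{ toFun := g
            map_smul' := ?_
            map_zero' := ?_
            map_add' := ?_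
            map_mul' := ?_
            map_star' := ?_ }, hg⟩
  · intro c x
    apply hι
    rw [hg, map_smul]
    show c • f x = ι (c • g x)
    rw [map_smul, hg]
  · apply hι
    rw [hg, map_zero, map_zero]
  · intro x y
    apply hι
    rw [hg, map_add, map_add, hg, hg]
  · intro x y
    apply hι
    rw [hg, map_mul, map_mul, hg, hg]
  · intro x
    apply hι
    rw [hg, map_star, map_star, hg]

section

variable {Q : Type} [Group Q] {B : Type} [NonUnitalCStarAlgebra B]

/-- the closed span of the fibres over a subgroup -/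
noncomputable def fibSpan (G : Fib Q B) (H : Subgroup Q) : Submodule ℂ B :=
  (Submodule.span ℂ {x | ∃ q ∈ H, x ∈ G.fib q}).topologicalClosure

theorem fib_le_fibSpan (G : Fib Q B) (H : Subgroup Q) {q : Q} (hq : q ∈ H) :
    G.fib q ≤ fibSpan G H := by
  intro x hx
  exact Submodule.le_topologicalClosure _ (Submodule.subset_span ⟨q, hq, hx⟩)

theorem fibSpan_mono (G : Fib Q B) {H H' : Subgroup Q} (h : H ≤ H') :
    fibSpan G H ≤ fibSpan G H' := by
  apply Submodule.topologicalClosure_mono
  apply Submodule.span_mono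
  rintro x ⟨q, hq, hx⟩
  exact ⟨q, h hq, hx⟩

/-- the restriction of a weak grading to a subgroup -/
theorem exists_restrict (G : Fib Q B) (H : Subgroup Q) :
    ∃ (D : Type) (_ : NonUnitalCStarAlgebra D) (ι : D →⋆ₙₐ[ℂ] B), Function.Injective ι ∧
      Set.range ι = (fibSpan G H : Set B) ∧
      ∃ G' : Fib H D, ∀ (q : H) (x : D), x ∈ G'.fib q ↔ ι x ∈ G.fib q := by
  have hmulS : ∀ x ∈ {x | ∃ q ∈ H, x ∈ G.fib q}, ∀ y ∈ {x | ∃ q ∈ H, x ∈ G.fib q},
      x * y ∈ fibSpan G H := by
    rintro x ⟨q, hq, hx⟩ y ⟨q', hq', hy⟩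
    exact fib_le_fibSpan G H (H.mul_mem hq hq') (G.mul_mem q q' x y hx hy)
  have hcl : IsClosed (fibSpan G H : Set B) := Submodule.isClosed_topologicalClosure _
  have hmul : ∀ x ∈ fibSpan G H, ∀ y ∈ fibSpan G H, x * y ∈ fibSpan G H :=
    closure_mul_mem _ _ _ hcl hmulS
  have hstar : ∀ x ∈ fibSpan G H, star x ∈ fibSpan G H := by
    apply closure_star_mem
    rintro x ⟨q, hq, hx⟩
    exact ⟨q⁻¹, H.inv_mem hq, G.star_mem q x hx⟩
  obtain ⟨D, _, ι, hι, hr⟩ := exists_alg (fibSpan G H) hcl hmul hstar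
  refine ⟨D, inferInstance, ι, hι, hr, ?_⟩
  have hiso : Isometry ι := NonUnitalStarAlgHom.isometry ι hι
  have hιc : Continuous ι := hiso.continuous
  let L : D →ₗ[ℂ] B := { toFun := ι, map_add' := map_add ι, map_smul' := map_smul ι }
  refine ⟨{ fib := fun q => (G.fib (q : Q)).comap L
            closed := fun q => (G.closed (q : Q)).preimage hιc
            mul_mem := ?_
            star_mem := ?_
            dense := ?_ }, fun q x => Iff.rfl⟩
  · intro p q x y hx hy
    show ι (x * y) ∈ G.fib ((p * q : H) : Q)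
    rw [map_mul]
    exact G.mul_mem p q _ _ hx hy
  · intro q x hx
    show ι (star x) ∈ G.fib ((q⁻¹ : H) : Q)
    rw [map_star]
    exact G.star_mem q _ hx
  · rw [eq_top_iff]
    intro x _
    set W : Submodule ℂ D := ⨆ q : H, (G.fib (q : Q)).comap L with hW
    have h1 : Submodule.span ℂ {x | ∃ q ∈ H, x ∈ G.fib q} ≤ W.map L := by
      rw [Submodule.span_le]
      rintro y ⟨q, hq, hy⟩
      have h2 : y ∈ Set.range ι := by rw [hr]; exact fib_le_fibSpan G H hq hy
      obtain ⟨z, rfl⟩ := h2
      refine ⟨z, ?_, rfl⟩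
      exact (le_iSup (fun q : H => (G.fib (q : Q)).comap L) ⟨q, hq⟩) hy
    have h3 : ι x ∈ closure (ι '' (W : Set D)) := by
      have h4 : ι x ∈ (fibSpan G H : Set B) := by rw [← hr]; exact Set.mem_range_self x
      have h5 : (Submodule.span ℂ {x | ∃ q ∈ H, x ∈ G.fib q} : Set B) ⊆ ι '' (W : Set D) := h1
      exact closure_mono h5 h4
    have h6 : x ∈ closure (W : Set D) := by
      rw [hiso.isUniformInducing.isInducing.closure_eq_preimage_closure_image]
      exact h3
    exact h6

end

theorem tlv (hTV : S_TV) : S_TLV := by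
  intro 𝒞 h𝒞 B _ _ Q _ _ hQ G A _ hA ι hι
  obtain ⟨f, hf⟩ := exists_surjective_nat Q
  set Qn : ℕ → Subgroup Q := fun n => Subgroup.closure (f '' Set.Iio n) with hQn
  have hQmono : Monotone Qn := by
    intro m n hmn
    exact Subgroup.closure_mono (Set.image_mono (Set.Iio_subset_Iio hmn))
  have hfg : ∀ n, (Qn n).FG := by
    intro n
    rw [Subgroup.fg_iff]
    exact ⟨_, rfl, (Set.finite_Iio n).image f⟩
  have key : ∀ n, ∃ (D : Type) (_ : NonUnitalCStarAlgebra D) (ι : D →⋆ₙₐ[ℂ] B),
      Function.Injective ι ∧ Set.range ι = (fibSpan G (Qn n) : Set B) ∧ 𝒞 D := by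
    intro n
    obtain ⟨D, _, j, hj, hjr, G', hG'⟩ := exists_restrict G (Qn n)
    refine ⟨D, inferInstance, j, hj, hjr, ?_⟩
    have hsub : Set.range ι ⊆ Set.range j := by
      rw [hι, hjr]
      exact fib_le_fibSpan G (Qn n) (Qn n).one_mem
    obtain ⟨f', hf'⟩ := lift_hom ι j hj hsub
    have hiso : Isometry j := NonUnitalStarAlgHom.isometry j hj
    have : SecondCountableTopology B := UniformSpace.secondCountable_of_separable B
    have : SecondCountableTopology D :=
      hiso.isUniformInducing.isInducing.secondCountableTopology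
    refine hTV 𝒞 h𝒞 D (Qn n) (hQ _ (hfg n)) G' A hA f' ?_
    ext x
    constructor
    · rintro ⟨a, rfl⟩
      have h1 : ι a ∈ (G.fib 1 : Set B) := by rw [← hι]; exact Set.mem_range_self a
      show f' a ∈ G'.fib 1
      rw [hG', hf']
      exact h1
    · intro hx
      have h1 : j x ∈ G.fib ((1 : Qn n) : Q) := (hG' 1 x).1 hx
      have h2 : j x ∈ Set.range ι := by rw [hι]; exact h1
      obtain ⟨a, ha⟩ := h2
      exact ⟨a, hj (by rw [hf', ha])⟩
  choose D inst j hj hjr hjC using key
  refine h𝒞.union B D j hj ?_ ?_ hjC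
  · intro n
    rw [hjr, hjr]
    exact fibSpan_mono G (hQmono (Nat.le_succ n))
  · have hmono : Monotone (fun n => fibSpan G (Qn n)) := fun m n hmn => fibSpan_mono G (hQmono hmn)
    have h1 : (⨆ q, G.fib q) ≤ ⨆ n, fibSpan G (Qn n) := by
      apply iSup_le
      intro q
      obtain ⟨n, rfl⟩ := hf q
      refine le_trans ?_ (le_iSup (fun n => fibSpan G (Qn n)) (n + 1))
      exact fib_le_fibSpan G _ (Subgroup.subset_closure ⟨n, Nat.lt_succ_self n, rfl⟩)
    have h2 : ((⨆ n, fibSpan G (Qn n) : Submodule ℂ B) : Set B) =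
        ⋃ n, (fibSpan G (Qn n) : Set B) :=
      Submodule.coe_iSup_of_directed _ hmono.directed_le
    have h3 : (⋃ n, Set.range (j n)) = ((⨆ n, fibSpan G (Qn n) : Submodule ℂ B) : Set B) := by
      rw [h2]
      exact Set.iUnion_congr hjr
    rw [h3]
    intro x
    have h4 : x ∈ (⨆ q, G.fib q).topologicalClosure := by rw [G.dense]; trivial
    exact closure_mono h1 h4

theorem gr (hTLV : S_TLV) : S_GR := by
  intro 𝒞 h𝒞 Γ _ _ N _ hN hVPC B _ u hu
  set S : Γ ⧸ N → Set B := fun t => {x | ∃ g : Γ, (g : Γ ⧸ N) = t ∧ x = ((u g : unitary B) : B)}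
    with hS
  have hSmul : ∀ p q, ∀ x ∈ S p, ∀ y ∈ S q, x * y ∈ S (p * q) := by
    rintro p q x ⟨g, hg, rfl⟩ y ⟨g', hg', rfl⟩
    refine ⟨g * g', ?_, ?_⟩
    · rw [← hg, ← hg']; rfl
    · rw [map_mul]; rfl
  have hSstar : ∀ p, ∀ x ∈ S p, star x ∈ S p⁻¹ := by
    rintro p x ⟨g, hg, rfl⟩
    refine ⟨g⁻¹, ?_, ?_⟩
    · rw [← hg]; rfl
    · rw [map_inv]; rfl
  let G : Fib (Γ ⧸ N) B :=
    { fib := fun t => (Submodule.span ℂ (S t)).topologicalClosure
      closed := fun t => Submodule.isClosed_topologicalClosure _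
      mul_mem := fun p q x y hx hy => closure_mul_mem (S p) (S q) _
        (Submodule.isClosed_topologicalClosure _)
        (fun x hx y hy => Submodule.le_topologicalClosure _
          (Submodule.subset_span (hSmul p q x hx y hy))) x hx y hy
      star_mem := fun q x hx => closure_star_mem (S q) (S q⁻¹) (hSstar q) x hx
      dense := by
        rw [eq_top_iff, ← hu]
        apply Submodule.topologicalClosure_mono
        rw [Submodule.span_le]
        rintro x ⟨g, rfl⟩
        exact (le_iSup (fun t => (Submodule.span ℂ (S t)).topologicalClosure) (g : Γ ⧸ N))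
          (Submodule.le_topologicalClosure _ (Submodule.subset_span ⟨g, rfl, rfl⟩)) }
  have hcomm : ∀ x ∈ G.fib 1, ∀ y ∈ G.fib 1, x * y = y * x := by
    have hbot : IsClosed ((⊥ : Submodule ℂ B) : Set B) := by
      rw [Submodule.bot_coe]; exact isClosed_singleton
    intro x hx y hy
    have h1 : ∀ x ∈ S 1, x * y = y * x := by
      rintro x ⟨g, hg, rfl⟩
      have h2 := closure_map_mem (S 1) (⊥ : Submodule ℂ B) hbot
        (LinearMap.mulLeft ℂ ((u g : unitary B) : B) - LinearMap.mulRight ℂ ((u g : unitary B) : B))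
        ((continuous_const_mul _).sub (continuous_mul_const _)) ?_ y hy
      · have h3 := (Submodule.mem_bot ℂ).1 h2
        exact sub_eq_zero.1 h3
      · rintro z ⟨g', hg', rfl⟩
        rw [Submodule.mem_bot]
        show ((u g : unitary B) : B) * ((u g' : unitary B) : B) -
          ((u g' : unitary B) : B) * ((u g : unitary B) : B) = 0
        rw [sub_eq_zero]
        have h3 : g * g' = g' * g := hN g ((QuotientGroup.eq_one_iff g).1 hg) g'
          ((QuotientGroup.eq_one_iff g').1 hg')
        have h4 := congrArg (fun g => ((u g : unitary B) : B)) h3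
        simpa only [map_mul, Submonoid.coe_mul] using h4
    have h2 := closure_map_mem (S 1) (⊥ : Submodule ℂ B) hbot
        (LinearMap.mulRight ℂ y - LinearMap.mulLeft ℂ y)
        ((continuous_mul_const _).sub (continuous_const_mul _)) (fun z hz => by
          rw [Submodule.mem_bot]
          exact sub_eq_zero.2 (h1 z hz)) x hx
    exact sub_eq_zero.1 ((Submodule.mem_bot ℂ).1 h2)
  obtain ⟨A, _, ι, hι, hr⟩ := exists_alg (G.fib 1) (G.closed 1)
    (fun x hx y hy => by have := G.mul_mem 1 1 x y hx hy; rwa [one_mul] at this)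
    (fun x hx => by have := G.star_mem 1 x hx; rwa [inv_one] at this)
  have hAmem : ∀ a : A, ι a ∈ G.fib 1 := by
    intro a
    have : ι a ∈ (G.fib 1 : Set B) := by rw [← hr]; exact Set.mem_range_self a
    exact this
  have hAcomm : ∀ a b : A, a * b = b * a := by
    intro a b
    apply hι
    rw [map_mul, map_mul]
    exact hcomm _ (hAmem a) _ (hAmem b)
  have hAI : IsTypeI A := by
    intro A' _ π hπ hnt
    obtain ⟨x, hx⟩ := exists_ne (0 : A')
    refine ⟨star x * x, IsSelfAdjoint.star_mul_self x, ?_, ?_⟩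
    · rwa [Ne, CStarRing.star_mul_self_eq_zero_iff]
    · have hc : ∀ a b : A', a * b = b * a := by
        intro a b
        obtain ⟨a, rfl⟩ := hπ a
        obtain ⟨b, rfl⟩ := hπ b
        rw [← map_mul, ← map_mul, hAcomm]
      intro x y
      exact hc _ _
  have hsep : TopologicalSpace.SeparableSpace B := by
    rw [← TopologicalSpace.isSeparable_univ_iff]
    have h1 : TopologicalSpace.IsSeparable
        (Set.range fun g => ((u g : unitary B) : B)) := (Set.countable_range _).isSeparable
    have h2 := (h1.span (R := ℂ)).closure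
    have h3 : closure (Submodule.span ℂ (Set.range fun g => ((u g : unitary B) : B)) : Set B) =
        Set.univ := by
      have := congrArg (fun V : Submodule ℂ B => (V : Set B)) hu
      simpa only [Submodule.topologicalClosure_coe, Submodule.top_coe] using this
    rwa [h3] at h2
  have : Countable (Γ ⧸ N) := (QuotientGroup.mk_surjective (s := N)).countable
  exact hTLV 𝒞 h𝒞 B (Γ ⧸ N) hVPC G A hAI ι hr

end Pool.Agent.Helper10.Uct
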